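import Mathlib
import Pool.Agent.Helper66.DS.Defs

set_option autoImplicit false

namespace Pool.Agent.Helper66.DS

open MeasureTheory Set

/-- central projection to the face `x 0 = 1` -/
private noncomputable def faceproj0 {d : ℕ} (x : E d) : Fin d → ℝ := fun i => x i.succ / x 0

private theorem face_measurable_proj0 {d : ℕ} : Measurable (faceproj0 (d := d)) := by
  rw [measurable_pi_iff]
  intro i
  unfold faceproj0
  have h1 : Measurable fun x : E d => x i.succ :=
    (EuclideanSpace.proj (𝕜 := ℝ) i.succ : E d →L[ℝ] ℝ).continuous.measurable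
  have h2 : Measurable fun x : E d => x 0 :=
    (EuclideanSpace.proj (𝕜 := ℝ) (0 : Fin (d + 1)) : E d →L[ℝ] ℝ).continuous.measurable
  exact h1.div h2

private theorem face_measurableSet_box {ι : Type} [Fintype ι] (a b : ι → ℝ) : MeasurableSet (box a b) := by
  have : box a b = ⋂ i, ((fun y : ι → ℝ => y i) ⁻¹' (Set.Ico (a i) (b i))) := by
    ext y
    simp [box]
  rw [this]
  exact MeasurableSet.iInter fun i => (measurable_pi_apply i) measurableSet_Ico

/-- the open half ball -/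
private def facehalf0 (d : ℕ) : Set (E d) := {x | x ∈ ball1 d ∧ 0 < x 0}

private theorem face_measurableSet_half0 (d : ℕ) : MeasurableSet (facehalf0 d) := by
  have h2 : Continuous fun x : E d => x 0 :=
    (EuclideanSpace.proj (𝕜 := ℝ) (0 : Fin (d + 1)) : E d →L[ℝ] ℝ).continuous
  have : facehalf0 d = ball1 d ∩ {x : E d | 0 < x 0} := rfl
  rw [this]
  exact (Metric.isOpen_ball.inter (isOpen_lt continuous_const h2)).measurableSet

private theorem face_preimage_box {d : ℕ} (a b : Fin d → ℝ) :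
    faceproj0 ⁻¹' (box a b) ∩ facehalf0 d = coneCell a b := by
  ext x
  simp only [Set.mem_inter_iff, Set.mem_preimage, facehalf0, coneCell, box]
  constructor
  · rintro ⟨h1, h2, h3⟩
    refine ⟨h2, h3, fun i => ?_⟩
    obtain ⟨h4, h5⟩ := h1 i
    exact ⟨(le_div_iff₀ h3).1 h4, (div_lt_iff₀ h3).1 h5⟩
  · rintro ⟨h2, h3, h1⟩
    refine ⟨fun i => ?_, h2, h3⟩
    obtain ⟨h4, h5⟩ := h1 i
    exact ⟨(le_div_iff₀ h3).2 h4, (div_lt_iff₀ h3).2 h5⟩

/-- the distribution of the central projection -/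
private noncomputable def facemuF (d : ℕ) : Measure (Fin d → ℝ) :=
  Measure.map faceproj0 (volume.restrict (facehalf0 d))

private theorem face_muF_finite (d : ℕ) : IsFiniteMeasure (facemuF d) := by
  have h : IsFiniteMeasure ((volume : Measure (E d)).restrict (facehalf0 d)) := by
    refine ⟨?_⟩
    rw [Measure.restrict_apply MeasurableSet.univ, Set.univ_inter]
    refine lt_of_le_of_lt (measure_mono (fun x hx => hx.1)) ?_
    exact measure_ball_lt_top
  unfold facemuF
  infer_instance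

private theorem face_muF_box {d : ℕ} (a b : Fin d → ℝ) :
    (facemuF d).real (box a b) = volume.real (coneCell a b) := by
  unfold facemuF Measure.real
  rw [Measure.map_apply face_measurable_proj0 (face_measurableSet_box a b),
    Measure.restrict_apply (face_measurable_proj0 (face_measurableSet_box a b)), face_preimage_box]

theorem face_cells
    (hslice : ∀ {ι : Type} [Fintype ι] [DecidableEq ι] (μ : Measure (ι → ℝ)) [IsFiniteMeasure μ]
      (c C : ℝ) (_ : 0 < c)
      (_ : ∀ a b : ι → ℝ, (∀ i, -1 ≤ a i ∧ a i ≤ b i ∧ b i ≤ 1) →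
        c * ∏ i, (b i - a i) ≤ μ.real (box a b) ∧ μ.real (box a b) ≤ C * ∏ i, (b i - a i))
      (m : ℕ) (_ : 1 ≤ m),
      ∃ (P : Type) (_ : Fintype P) (a b : P → ι → ℝ),
        Fintype.card P = m ^ Fintype.card ι ∧
        (∀ p i, -1 ≤ a p i ∧ a p i < b p i ∧ b p i ≤ 1 ∧ b p i - a p i ≤ 2 * C / (c * m)) ∧
        (∀ p p', p ≠ p' → Disjoint (box (a p) (b p)) (box (a p') (b p'))) ∧
        (∀ p, μ.real (box (a p) (b p)) * (m : ℝ) ^ Fintype.card ι
          = μ.real (box (fun _ => -1) (fun _ => 1))))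
    (hcone : ∀ d : ℕ, ∃ c C : ℝ, 0 < c ∧ 0 < C ∧ ∀ a b : Fin d → ℝ,
      (∀ i, -1 ≤ a i ∧ a i ≤ b i ∧ b i ≤ 1) →
      c * ∏ i, (b i - a i) ≤ volume.real (coneCell a b) ∧
        volume.real (coneCell a b) ≤ C * ∏ i, (b i - a i))
    (hdir : ∀ (d : ℕ) (a b : Fin d → ℝ) (δ : ℝ) (_ : 0 ≤ δ) (_ : ∀ i, b i - a i ≤ δ)
      (x y : E d) (_ : x ∈ coneCell a b) (_ : y ∈ coneCell a b),
      ‖dir x - dir y‖ ≤ 2 * d * δ)
    (d : ℕ) : ∃ C : ℝ, 0 < C ∧ ∀ m : ℕ, 1 ≤ m →
    ∃ (P : Type) (_ : Fintype P) (a b : P → Fin d → ℝ),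
      Fintype.card P = m ^ d ∧
      (∀ p i, -1 ≤ a p i ∧ a p i < b p i ∧ b p i ≤ 1) ∧
      (∀ p p', p ≠ p' → Disjoint (coneCell (a p) (b p)) (coneCell (a p') (b p'))) ∧
      (∀ p, volume.real (coneCell (a p) (b p)) * (m : ℝ) ^ d
        = volume.real (coneCell (fun _ : Fin d => (-1 : ℝ)) (fun _ => 1))) ∧
      (∀ p, ∀ x ∈ coneCell (a p) (b p), ∀ y ∈ coneCell (a p) (b p),
        ‖dir x - dir y‖ ≤ C / m) := by
  obtain ⟨c, C, hc, hC, hcC⟩ := hcone d
  refine ⟨4 * d * C / c + 1, by positivity, ?_⟩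
  intro m hm
  have := face_muF_finite d
  obtain ⟨P, hP, a, b, h1, h2, h3, h4⟩ := hslice (facemuF d) c C hc
    (fun a b hab => by rw [face_muF_box]; exact hcC a b hab) m hm
  have hm0 : (0 : ℝ) < m := by exact_mod_cast hm
  refine ⟨P, hP, a, b, ?_, ?_, ?_, ?_, ?_⟩
  · rw [h1, Fintype.card_fin]
  · intro p i
    exact ⟨(h2 p i).1, (h2 p i).2.1, (h2 p i).2.2.1⟩
  · intro p p' hpp
    have h5 := h3 p p' hpp
    rw [Set.disjoint_left] at h5 ⊢
    intro x hx hx'
    rw [← face_preimage_box] at hx hx'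
    exact h5 hx.1 hx'.1
  · intro p
    have h5 := h4 p
    rw [face_muF_box, face_muF_box, Fintype.card_fin] at h5
    exact h5
  · intro p x hx y hy
    have h5 := hdir d (a p) (b p) (2 * C / (c * m)) (by positivity)
      (fun i => (h2 p i).2.2.2) x y hx hy
    refine h5.trans ?_
    have h6 : 2 * (d : ℝ) * (2 * C / (c * m)) = (4 * d * C / c) / m := by
      field_simp
      ring
    rw [h6]
    apply div_le_div_of_nonneg_right _ hm0.le
    linarith

end Pool.Agent.Helper66.DS
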